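import Pool.Agent.Q26.EL.Fam2a
import Pool.Agent.Q166.EG.Lift

set_option autoImplicit false

/-!
Project EL (helper72), job FAM2: systems over a variety.
-/

namespace Pool.Agent.Q26.EL

open MvPolynomial Pool.Agent.Q72.EL
open Pool.Agent.Q72.EG (Pt)

/-- generic lifting of points (as in `Pool.Agent.Q72.EG.Fam`) -/
theorem lift_pt {E : Type} [Field E] [Algebra ℂ E] {τ κ : Type} [Finite τ] [Finite κ] (ζ : τ → E)
    (f : κ → E) (k0 : κ)
    (halg : ∀ k, IsAlgebraic (IntermediateField.adjoin ℂ (Set.range ζ)) (f k)) :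
    ∃ H : MvPolynomial τ ℂ, aeval ζ H ≠ 0 ∧ ∀ t ∈ Pt ζ, eval t H ≠ 0 →
      ∃ p ∈ Pt (Sum.elim ζ f), ∀ i, p (Sum.inl i) = t i := by
  obtain ⟨A, H, hH, ⟨b, hb⟩, hA, hl⟩ := Pool.Agent.Q166.EG.lift0 E τ κ ζ f k0 halg
  set q : Polynomial E := A.map (aeval ζ : MvPolynomial τ ℂ →ₐ[ℂ] E).toRingHom with hq
  have hq0 : q ≠ 0 := by
    intro h
    apply hb
    have := congrArg (fun r => Polynomial.coeff r b) h
    simpa [hq, Polynomial.coeff_map] using this
  have hroot : q.IsRoot (f k0) := hA
  have hdeg : 0 < q.natDegree := by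
    apply Polynomial.natDegree_pos_iff_degree_pos.2
    exact Polynomial.degree_pos_of_root hq0 hroot
  have hlead : aeval ζ (A.coeff q.natDegree) ≠ 0 := by
    have h1 : q.coeff q.natDegree ≠ 0 := by
      rw [Polynomial.coeff_natDegree]
      exact Polynomial.leadingCoeff_ne_zero.2 hq0
    rw [hq, Polynomial.coeff_map] at h1
    exact h1
  refine ⟨H * A.coeff q.natDegree, by rw [map_mul]; exact mul_ne_zero hH hlead, ?_⟩
  intro t ht hne
  rw [map_mul] at hne
  have h1 : (A.map (eval t)).degree ≠ 0 := by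
    have h2 : (A.map (eval t)).coeff q.natDegree ≠ 0 := by
      rw [Polynomial.coeff_map]; exact right_ne_zero_of_mul hne
    have h3 := Polynomial.le_degree_of_ne_zero h2
    intro h4
    rw [h4] at h3
    have : q.natDegree ≤ 0 := by exact_mod_cast h3
    omega
  obtain ⟨z, hz⟩ := IsAlgClosed.exists_root _ h1
  obtain ⟨p, hp, hpi, -⟩ := hl t ht (left_ne_zero_of_mul hne) z hz
  exact ⟨p, hp, hpi⟩

/-- the coefficients of a polynomial in `x` only -/
theorem sum_ren {n c : ℕ} (g : MvPolynomial (Fin n) ℂ) :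
    sumAlgEquiv ℂ (Fin c) (Fin n) (rename Sum.inr g) = C g := by
  induction g using MvPolynomial.induction_on with
  | C r => rw [rename_C, sumAlgEquiv_C_inl]
  | add p q hp hq => rw [map_add, map_add, hp, hq, C_add]
  | mul_X p i hp => rw [map_mul, map_mul, hp, rename_X, sumAlgEquiv_X_inr, C_mul]

theorem nz_ren {n c : ℕ} (I : Ideal (MvPolynomial (Fin n) ℂ)) (g : MvPolynomial (Fin n) ℂ) :
    NZ I (rename Sum.inr g : MvPolynomial (Fin c ⊕ Fin n) ℂ) ↔ g ∉ I := by
  unfold NZ cf
  rw [sum_ren]
  constructor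
  · rintro ⟨α, hα⟩ hg
    rw [coeff_C] at hα
    split_ifs at hα
    · exact hα hg
    · exact hα I.zero_mem
  · intro h
    refine ⟨0, ?_⟩
    rw [coeff_C, if_pos rfl]
    exact h

/-- **S_fam** from `S_ff` -/
theorem fam (hff : S_ff) : S_fam := by
  classical
  intro n c I hI htr hH A B hA hB i hdet G hG
  obtain ⟨E, iE, aE, ξ, D, hξ, hgen, hadd, hmul, hC, hDt, hDx⟩ := field_data (c := c) I hI
  set x : Fin n → E := fun l => ξ (Sum.inr l) with hx
  set t : Fin c → E := fun j => ξ (Sum.inl j) with ht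
  set y : Fin n → E := fun j => aeval ξ (A j) / aeval ξ (B j) with hy
  have hne : ∀ H : MvPolynomial (Fin c ⊕ Fin n) ℂ, NZ I H → aeval ξ H ≠ 0 :=
    fun H h h0 => (hξ H).1 h0 h
  have hA' : ∀ j, aeval ξ (A j) ≠ 0 := fun j => hne _ (hA j)
  have hB' : ∀ j, aeval ξ (B j) ≠ 0 := fun j => hne _ (hB j)
  have hyn : ∀ l, y l ≠ 0 := fun l => div_ne_zero (hA' l) (hB' l)
  have hxr : ∀ g : MvPolynomial (Fin n) ℂ, aeval x g = aeval ξ (rename Sum.inr g) := by
    intro g
    rw [aeval_rename]
    rfl
  have hker : RingHom.ker (aeval x : MvPolynomial (Fin n) ℂ →ₐ[ℂ] E) = I := by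
    ext g
    rw [RingHom.mem_ker, hxr, hξ, nz_ren, not_not]
  -- the derivations
  have hD0 : ∀ k, D k 0 = 0 := by
    intro k
    have := hadd k 0 0
    rw [add_zero] at this
    exact left_eq_add.1 this
  have hD1 : ∀ k, D k 1 = 0 := by
    intro k
    have := hC k 1
    rwa [map_one] at this
  have hDpol : ∀ k (F : MvPolynomial (Fin c ⊕ Fin n) ℂ),
      D k (aeval ξ F) = aeval ξ (pderiv (Sum.inl k) F) := by
    intro k F
    induction F using MvPolynomial.induction_on with
    | C a => rw [aeval_C, hC, pderiv_C, map_zero]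
    | add p q hp hq => rw [map_add, hadd, hp, hq, map_add, map_add]
    | mul_X p j hp =>
      rw [map_mul, hmul, hp, aeval_X, Derivation.leibniz, smul_eq_mul, smul_eq_mul, map_add,
        map_mul, map_mul, aeval_X]
      rcases j with j | l
      · rw [hDt, pderiv_X]
        by_cases h : j = k
        · subst h
          rw [if_pos rfl, Pi.single_eq_same, map_one]
        · have h' : (Sum.inl j : Fin c ⊕ Fin n) ≠ Sum.inl k := fun h1 => h (Sum.inl.inj h1)
          rw [if_neg h, Pi.single_eq_of_ne h', map_zero]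
      · rw [hDx, pderiv_X_of_ne (by simp), map_zero]
  have hK0 : ∀ k (a : IntermediateField.adjoin ℂ (Set.range x)),
      D k (algebraMap (IntermediateField.adjoin ℂ (Set.range x)) E a) = 0 := by
    intro k a
    have hmem : ∀ u : E, u ∈ IntermediateField.adjoin ℂ (Set.range x) → D k u = 0 := by
      intro u hu
      induction hu using IntermediateField.adjoin_induction with
      | mem u hu =>
        obtain ⟨l, rfl⟩ := hu
        exact hDx k l
      | algebraMap r => exact hC k r
      | add u v _ _ hu hv => rw [hadd, hu, hv, add_zero]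
      | inv u _ hu =>
        by_cases h0 : u = 0
        · rw [h0, inv_zero, hD0]
        · have h1 := hmul k u u⁻¹
          rw [mul_inv_cancel₀ h0, hD1, hu, mul_zero, add_zero] at h1
          exact (mul_eq_zero.1 h1.symm).resolve_left h0
      | mul u v _ _ hu hv => rw [hmul, hu, hv, mul_zero, mul_zero, add_zero]
    exact hmem a a.2
  have hDy : ∀ k j, D k (y j) = (aeval ξ (B j) ^ 2)⁻¹ * aeval ξ
      (pderiv (Sum.inl k) (A j) * B j - A j * pderiv (Sum.inl k) (B j)) := by
    intro k j
    have h1 : y j * aeval ξ (B j) = aeval ξ (A j) := div_mul_cancel₀ _ (hB' j)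
    have h2 := congrArg (D k) h1
    rw [hmul, hDpol, hDpol] at h2
    rw [map_sub, map_mul, map_mul]
    have h3 := hB' j
    have h4 : aeval ξ (B j) * D k (y j) = aeval ξ (pderiv (Sum.inl k) (A j)) -
        y j * aeval ξ (pderiv (Sum.inl k) (B j)) := by
      rw [← h2]; ring
    have h5 : D k (y j) = (aeval ξ (B j))⁻¹ * (aeval ξ (pderiv (Sum.inl k) (A j)) -
        y j * aeval ξ (pderiv (Sum.inl k) (B j))) := by
      rw [← h4, inv_mul_cancel_left₀ h3]
    rw [h5]
    simp only [hy]
    field_simp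
  have hAI : AlgebraicIndependent (IntermediateField.adjoin ℂ (Set.range x))
      (fun j => y (i j)) := by
    have : CharZero (IntermediateField.adjoin ℂ (Set.range x)) :=
      charZero_of_injective_algebraMap (algebraMap ℂ (IntermediateField.adjoin ℂ (Set.range x))).injective
    refine jac D hadd hmul hK0 (fun j => y (i j)) ?_
    have e1 : (Matrix.of fun j k : Fin c => D k (y (i j))) = Matrix.of fun j k : Fin c =>
        (aeval ξ (B (i j)) ^ 2)⁻¹ * ((Matrix.of fun j k : Fin c =>
          pderiv (Sum.inl k) (A (i j)) * B (i j) - A (i j) * pderiv (Sum.inl k) (B (i j))).map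
            (aeval ξ)) j k := by
      ext j k
      rw [Matrix.of_apply, Matrix.of_apply, hDy, Matrix.map_apply, Matrix.of_apply]
    rw [e1, Matrix.det_mul_column]
    refine mul_ne_zero ?_ ?_
    · exact Finset.prod_ne_zero_iff.2 fun j _ => inv_ne_zero (pow_ne_zero _ (hB' _))
    · have e2 := AlgHom.map_det (aeval ξ : MvPolynomial (Fin c ⊕ Fin n) ℂ →ₐ[ℂ] E)
        (Matrix.of fun j k : Fin c =>
          pderiv (Sum.inl k) (A (i j)) * B (i j) - A (i j) * pderiv (Sum.inl k) (B (i j)))
      rw [AlgHom.mapMatrix_apply] at e2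
      rw [← e2]
      exact hne _ hdet
  -- everything is algebraic over `ℂ(x, t)`
  have htop : IntermediateField.adjoin ℂ (Set.range ξ) = ⊤ := by
    rw [eq_top_iff]
    intro u _
    have hmem : ∀ f : MvPolynomial (Fin c ⊕ Fin n) ℂ,
        aeval ξ f ∈ IntermediateField.adjoin ℂ (Set.range ξ) := by
      intro f
      induction f using MvPolynomial.induction_on with
      | C a => rw [aeval_C]; exact IntermediateField.algebraMap_mem _ _
      | add p q hp hq => rw [map_add]; exact add_mem hp hq
      | mul_X p i hp =>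
        rw [map_mul, aeval_X]
        exact mul_mem hp (IntermediateField.subset_adjoin _ _ ⟨i, rfl⟩)
    obtain ⟨f, g, hg, hu⟩ := hgen u
    rw [eq_div_of_mul_eq hg hu]
    exact div_mem (hmem f) (hmem g)
  have hadj : IntermediateField.restrictScalars ℂ (IntermediateField.adjoin
      (IntermediateField.adjoin ℂ (Set.range x)) (Set.range t)) = ⊤ := by
    rw [IntermediateField.adjoin_adjoin_left, ← htop]
    congr 1
    ext u
    constructor
    · rintro (⟨l, rfl⟩ | ⟨j, rfl⟩)
      · exact ⟨Sum.inr l, rfl⟩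
      · exact ⟨Sum.inl j, rfl⟩
    · rintro ⟨j | l, rfl⟩
      · exact Or.inr ⟨j, rfl⟩
      · exact Or.inl ⟨l, rfl⟩
  have hadj' : IntermediateField.adjoin (IntermediateField.adjoin ℂ (Set.range x))
      (Set.range t) = ⊤ := by
    rw [eq_top_iff]
    intro u _
    have : u ∈ IntermediateField.restrictScalars ℂ (IntermediateField.adjoin
      (IntermediateField.adjoin ℂ (Set.range x)) (Set.range t)) := by rw [hadj]; trivial
    exact this
  have hE1 : Algebra.trdeg (IntermediateField.adjoin ℂ (Set.range x)) E ≤ Cardinal.mk (Fin c) := by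
    have : Algebra.IsAlgebraic
        (Algebra.adjoin (IntermediateField.adjoin ℂ (Set.range x)) (Set.range t)) E := by
      rw [← IntermediateField.isAlgebraic_adjoin_iff_top, hadj']
      exact ⟨fun z => isAlgebraic_algebraMap
        (⟨z, trivial⟩ : (⊤ : IntermediateField (IntermediateField.adjoin ℂ (Set.range x)) E))⟩
    have h1 := Algebra.IsAlgebraic.trdeg_le_cardinalMk (IntermediateField.adjoin ℂ (Set.range x))
      (Set.range t)
    exact h1.trans Cardinal.mk_range_le
  have hbas := hAI.isTranscendenceBasis_of_trdeg_le_of_finite hE1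
  have halg : ∀ u : E, IsAlgebraic (IntermediateField.adjoin ℂ
      (Set.range (Sum.elim (fun j => y (i j)) x))) u := by
    intro u
    have h1 := hbas.isAlgebraic_field
    have h2 : IsAlgebraic (IntermediateField.restrictScalars ℂ (IntermediateField.adjoin
      (IntermediateField.adjoin ℂ (Set.range x)) (Set.range fun j => y (i j)))) u :=
      h1.isAlgebraic u
    rw [IntermediateField.adjoin_adjoin_left, Set.union_comm] at h2
    rw [Set.Sum.elim_range]
    exact h2
  have hle : IntermediateField.adjoin ℂ (Set.range (Sum.elim (fun j => y (i j)) x)) ≤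
      IntermediateField.adjoin ℂ (Set.range (Sum.elim x y)) := by
    apply IntermediateField.adjoin.mono
    rintro _ ⟨j | l, rfl⟩
    · exact ⟨Sum.inr (i j), rfl⟩
    · exact ⟨Sum.inl l, rfl⟩
  have halg2 : ∀ u : E, IsAlgebraic (IntermediateField.adjoin ℂ (Set.range (Sum.elim x y))) u := by
    intro u
    obtain ⟨p, hp0, hp⟩ := halg u
    refine ⟨p.map (IntermediateField.inclusion hle).toRingHom, ?_, ?_⟩
    · exact (Polynomial.map_ne_zero_iff (IntermediateField.inclusion hle).toRingHom.injective).2 hp0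
    · rw [Polynomial.aeval_def, Polynomial.eval₂_map]
      rw [Polynomial.aeval_def] at hp
      exact hp
  set GB : MvPolynomial (Fin c ⊕ Fin n) ℂ := G * ∏ j, B j with hGB
  have hGB0 : aeval ξ GB ≠ 0 := by
    rw [hGB, map_mul, map_prod]
    exact mul_ne_zero (hne _ hG) (Finset.prod_ne_zero_iff.2 fun j _ => hB' j)
  set f : Fin c ⊕ Unit → E := Sum.elim t (fun _ => (aeval ξ GB)⁻¹) with hf
  obtain ⟨H, hH0, hlift⟩ := lift_pt (Sum.elim x y) f (Sum.inr ()) fun k => halg2 _
  obtain ⟨z, hz, hzH⟩ := hff n c E x y i hyn hAI (fun l => halg (y l))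
    (by rw [hker]; exact htr) (by rw [hker]; exact hH) H hH0 (fun _ => 1) (fun _ => one_ne_zero)
  simp only [one_mul] at hz hzH
  obtain ⟨p, hp, hpi⟩ := hlift _ hz hzH
  set t0 : Fin c → ℂ := fun j => p (Sum.inr (Sum.inl j)) with ht0
  set ι : Fin c ⊕ Fin n → (Fin n ⊕ Fin n) ⊕ (Fin c ⊕ Unit) :=
    Sum.elim (fun j => Sum.inr (Sum.inl j)) (fun l => Sum.inl (Sum.inl l)) with hι
  have hcomp : Sum.elim (Sum.elim x y) f ∘ ι = ξ := by
    funext o
    rcases o with j | l
    · rfl
    · rfl
  have hcomp' : p ∘ ι = Sum.elim t0 z := by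
    funext o
    rcases o with j | l
    · rfl
    · show p (Sum.inl (Sum.inl l)) = z l
      rw [hpi]
      rfl
  refine ⟨z, t0, fun g hg => ?_, ?_, ?_⟩
  · have h1 := hp (rename ι (rename Sum.inr g)) (by
      rw [aeval_rename, hcomp, ← hxr]
      have : g ∈ RingHom.ker (aeval x : MvPolynomial (Fin n) ℂ →ₐ[ℂ] E) := by rw [hker]; exact hg
      exact this)
    rw [eval_rename, hcomp', eval_rename] at h1
    exact h1
  all_goals
    have hGB1 : eval (Sum.elim t0 z) GB * p (Sum.inr (Sum.inr ())) = 1 := by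
      have h1 := hp (rename ι GB * X (Sum.inr (Sum.inr ())) - 1) (by
        rw [map_sub, map_mul, aeval_rename, hcomp, aeval_X, map_one]
        show aeval ξ GB * (aeval ξ GB)⁻¹ - 1 = 0
        rw [mul_inv_cancel₀ hGB0, sub_self])
      rw [map_sub, map_mul, eval_rename, hcomp', eval_X, map_one] at h1
      exact sub_eq_zero.1 h1
    have hGB2 : eval (Sum.elim t0 z) GB ≠ 0 := left_ne_zero_of_mul_eq_one hGB1
    rw [hGB, map_mul, map_prod] at hGB2
  · exact left_ne_zero_of_mul hGB2
  · intro j
    refine ⟨?_, ?_⟩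
    · exact Finset.prod_ne_zero_iff.1 (right_ne_zero_of_mul hGB2) j (Finset.mem_univ j)
    · have h1 := hp (X (Sum.inl (Sum.inr j)) * rename ι (B j) - rename ι (A j)) (by
        rw [map_sub, map_mul, aeval_rename, aeval_rename, hcomp, aeval_X]
        show y j * aeval ξ (B j) - aeval ξ (A j) = 0
        simp only [hy]
        rw [div_mul_cancel₀ _ (hB' j), sub_self])
      rw [map_sub, map_mul, eval_rename, eval_rename, hcomp', eval_X, hpi] at h1
      exact sub_eq_zero.1 h1

end Pool.Agent.Q26.EL
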