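import Pool.Agent.Q72.EL.Stm2

set_option autoImplicit false

/-!
Project EL (helper72), job FAM2, first part: derivations of function fields and the Jacobian criterion.
-/

namespace Pool.Agent.Q26.EL

open MvPolynomial Pool.Agent.Q72.EL

/-- extension of a derivation to the field of fractions -/
theorem ext_der {R1 E : Type} [CommRing R1] [IsDomain R1] [Field E] [Algebra R1 E]
    [IsFractionRing R1 E] (d : Derivation ℤ R1 R1) :
    ∃ D : E → E, (∀ u v, D (u + v) = D u + D v) ∧ (∀ u v, D (u * v) = u * D v + v * D u) ∧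
      ∀ r, D (algebraMap R1 E r) = algebraMap R1 E (d r) := by
  let g : R1 →+* TrivSqZeroExt E E :=
    { toFun := fun r => TrivSqZeroExt.inl (algebraMap R1 E r) + TrivSqZeroExt.inr (algebraMap R1 E (d r))
      map_one' := by
        ext
        · simp only [TrivSqZeroExt.fst_add, TrivSqZeroExt.fst_inl, TrivSqZeroExt.fst_inr,
            TrivSqZeroExt.fst_one, map_one, add_zero]
        · simp only [TrivSqZeroExt.snd_add, TrivSqZeroExt.snd_inl, TrivSqZeroExt.snd_inr,
            TrivSqZeroExt.snd_one, Derivation.map_one_eq_zero, map_zero, add_zero]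
      map_mul' := by
        intro a b
        ext
        · simp only [TrivSqZeroExt.fst_add, TrivSqZeroExt.fst_inl, TrivSqZeroExt.fst_inr,
            TrivSqZeroExt.fst_mul, map_mul, add_zero]
        · simp only [TrivSqZeroExt.snd_add, TrivSqZeroExt.snd_inl, TrivSqZeroExt.snd_inr,
            TrivSqZeroExt.snd_mul, TrivSqZeroExt.fst_add, TrivSqZeroExt.fst_inl,
            TrivSqZeroExt.fst_inr, Derivation.leibniz, smul_eq_mul, map_add, map_mul, zero_add,
            add_zero, MulOpposite.smul_eq_mul_unop, MulOpposite.unop_op]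
          ring
      map_zero' := by
        ext
        · simp only [TrivSqZeroExt.fst_add, TrivSqZeroExt.fst_inl, TrivSqZeroExt.fst_inr,
            TrivSqZeroExt.fst_zero, map_zero, add_zero]
        · simp only [TrivSqZeroExt.snd_add, TrivSqZeroExt.snd_inl, TrivSqZeroExt.snd_inr,
            TrivSqZeroExt.snd_zero, map_zero, add_zero]
      map_add' := by
        intro a b
        ext
        · simp only [TrivSqZeroExt.fst_add, TrivSqZeroExt.fst_inl, TrivSqZeroExt.fst_inr,
            map_add, add_zero]
        · simp only [TrivSqZeroExt.snd_add, TrivSqZeroExt.snd_inl, TrivSqZeroExt.snd_inr,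
            map_add, zero_add] }
  have hg1 : ∀ r, (g r).fst = algebraMap R1 E r := by
    intro r
    show (TrivSqZeroExt.inl (algebraMap R1 E r) + TrivSqZeroExt.inr (algebraMap R1 E (d r)) :
      TrivSqZeroExt E E).fst = _
    rw [TrivSqZeroExt.fst_add, TrivSqZeroExt.fst_inl, TrivSqZeroExt.fst_inr, add_zero]
  have hg2 : ∀ r, (g r).snd = algebraMap R1 E (d r) := by
    intro r
    show (TrivSqZeroExt.inl (algebraMap R1 E r) + TrivSqZeroExt.inr (algebraMap R1 E (d r)) :
      TrivSqZeroExt E E).snd = _
    rw [TrivSqZeroExt.snd_add, TrivSqZeroExt.snd_inl, TrivSqZeroExt.snd_inr, zero_add]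
  have hg : ∀ y : nonZeroDivisors R1, IsUnit (g y) := by
    intro y
    rw [TrivSqZeroExt.isUnit_iff_isUnit_fst, hg1, isUnit_iff_ne_zero]
    exact IsFractionRing.to_map_ne_zero_of_mem_nonZeroDivisors y.2
  let L : E →+* TrivSqZeroExt E E := IsLocalization.lift (M := nonZeroDivisors R1) (g := g) hg
  have hL : ∀ r, L (algebraMap R1 E r) = g r := fun r => IsLocalization.lift_eq hg r
  have hfst : ∀ u : E, (L u).fst = u := by
    have h1 : (TrivSqZeroExt.fstHom ℤ E E).toRingHom.comp L = RingHom.id E := by
      apply IsLocalization.ringHom_ext (nonZeroDivisors R1)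
      ext r
      show (L (algebraMap R1 E r)).fst = algebraMap R1 E r
      rw [hL, hg1]
    intro u
    exact congrArg (fun f : E →+* E => f u) h1
  refine ⟨fun u => (L u).snd, fun u v => ?_, fun u v => ?_, fun r => ?_⟩
  · simp only [map_add, TrivSqZeroExt.snd_add]
  · simp only [map_mul, TrivSqZeroExt.snd_mul, hfst, smul_eq_mul, MulOpposite.smul_eq_mul_unop,
      MulOpposite.unop_op]
    ring
  · simp only [hL, hg2]

/-- the function field of the product of the affine space with the variety of `I` -/
theorem field_data {n c : ℕ} (I : Ideal (MvPolynomial (Fin n) ℂ)) (hI : I.IsPrime) :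
    ∃ (E : Type) (_ : Field E) (_ : Algebra ℂ E) (ξ : Fin c ⊕ Fin n → E) (D : Fin c → E → E),
      (∀ H : MvPolynomial (Fin c ⊕ Fin n) ℂ, aeval ξ H = 0 ↔ ¬ NZ I H) ∧
      (∀ u : E, ∃ f g : MvPolynomial (Fin c ⊕ Fin n) ℂ, aeval ξ g ≠ 0 ∧
        u * aeval ξ g = aeval ξ f) ∧
      (∀ k u v, D k (u + v) = D k u + D k v) ∧
      (∀ k u v, D k (u * v) = u * D k v + v * D k u) ∧
      (∀ k r, D k (algebraMap ℂ E r) = 0) ∧
      (∀ k j, D k (ξ (Sum.inl j)) = if j = k then 1 else 0) ∧
      (∀ k l, D k (ξ (Sum.inr l)) = 0) := by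
  classical
  let A0 := MvPolynomial (Fin n) ℂ ⧸ I
  let R1 := MvPolynomial (Fin c) A0
  let E := FractionRing R1
  have hex : ∀ k : Fin c, ∃ D : E → E, (∀ u v, D (u + v) = D u + D v) ∧
      (∀ u v, D (u * v) = u * D v + v * D u) ∧
      ∀ r : R1, D (algebraMap R1 E r) = algebraMap R1 E (pderiv k r) := fun k => by
    have := ext_der (R1 := R1) (E := E) ((pderiv k : Derivation A0 R1 R1).restrictScalars ℤ)
    exact this
  choose D hD1 hD2 hD3 using hex
  let ξ : Fin c ⊕ Fin n → E := Sum.elim (fun j => algebraMap R1 E (X j))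
    (fun l => algebraMap R1 E (C (Ideal.Quotient.mk I (X l))))
  have hξ : ∀ H : MvPolynomial (Fin c ⊕ Fin n) ℂ, aeval ξ H =
      algebraMap R1 E (MvPolynomial.map (Ideal.Quotient.mk I) (sumAlgEquiv ℂ (Fin c) (Fin n) H)) := by
    intro H
    induction H using MvPolynomial.induction_on with
    | C r =>
      rw [sumAlgEquiv_C_inl, aeval_C, map_C, IsScalarTower.algebraMap_apply ℂ R1 E]
      rfl
    | add p q hp hq => rw [map_add, map_add, map_add, map_add, hp, hq]
    | mul_X p i hp =>
      rw [map_mul, map_mul, map_mul, map_mul, hp]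
      congr 1
      rcases i with j | l
      · rw [sumAlgEquiv_X_inl, aeval_X, map_X]
        rfl
      · rw [sumAlgEquiv_X_inr, aeval_X, map_C]
        rfl
  have hinj : Function.Injective (algebraMap R1 E) := IsFractionRing.injective R1 E
  refine ⟨E, inferInstance, inferInstance, ξ, D, ?_, ?_, hD1, hD2, ?_, ?_, ?_⟩
  · intro H
    rw [hξ, map_eq_zero_iff _ hinj]
    unfold NZ
    push Not
    constructor
    · intro h α
      have h1 := congrArg (coeff α) h
      rw [coeff_map, coeff_zero] at h1
      exact Ideal.Quotient.eq_zero_iff_mem.1 h1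
    · intro h
      ext α
      rw [coeff_map, coeff_zero]
      exact Ideal.Quotient.eq_zero_iff_mem.2 (h α)
  · intro u
    obtain ⟨a, b, hb, rfl⟩ := IsFractionRing.div_surjective (A := R1) u
    have hsurj : ∀ r : R1, ∃ f : MvPolynomial (Fin c ⊕ Fin n) ℂ,
        aeval ξ f = algebraMap R1 E r := by
      intro r
      obtain ⟨s, hs⟩ := MvPolynomial.map_surjective (Ideal.Quotient.mk I)
        Ideal.Quotient.mk_surjective r
      obtain ⟨f, hf⟩ := (sumAlgEquiv ℂ (Fin c) (Fin n)).surjective s
      exact ⟨f, by rw [hξ, hf, hs]⟩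
    obtain ⟨f, hf⟩ := hsurj a
    obtain ⟨g, hg⟩ := hsurj b
    have hb0 : algebraMap R1 E b ≠ 0 := IsFractionRing.to_map_ne_zero_of_mem_nonZeroDivisors hb
    refine ⟨f, g, by rw [hg]; exact hb0, ?_⟩
    rw [hf, hg, div_mul_cancel₀ _ hb0]
  · intro k r
    rw [IsScalarTower.algebraMap_apply ℂ R1 E, hD3]
    have : (algebraMap ℂ R1 r) = C (algebraMap ℂ A0 r) := rfl
    rw [this, pderiv_C, map_zero]
  · intro k j
    show D k (algebraMap R1 E (X j)) = _
    rw [hD3, pderiv_X]
    by_cases h : j = k
    · subst h
      simp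
    · rw [if_neg h, Pi.single_eq_of_ne h, map_zero]
  · intro k l
    show D k (algebraMap R1 E (C (Ideal.Quotient.mk I (X l)))) = 0
    rw [hD3, pderiv_C, map_zero]

/-- the Jacobian criterion -/
theorem jac {K0 E : Type} [Field K0] [CharZero K0] [Field E] [Algebra K0 E] {c : ℕ}
    (D : Fin c → E → E) (hadd : ∀ k u v, D k (u + v) = D k u + D k v)
    (hmul : ∀ k u v, D k (u * v) = u * D k v + v * D k u)
    (h0 : ∀ k (a : K0), D k (algebraMap K0 E a) = 0) (Y : Fin c → E)
    (hdet : Matrix.det (Matrix.of fun j k => D k (Y j)) ≠ 0) : AlgebraicIndependent K0 Y := by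
  classical
  have hchain : ∀ (k : Fin c) (P : MvPolynomial (Fin c) K0),
      D k (aeval Y P) = ∑ j, aeval Y (pderiv j P) * D k (Y j) := by
    intro k P
    induction P using MvPolynomial.induction_on with
    | C a => simp [h0]
    | add p q hp hq =>
      simp only [map_add, hadd, hp, hq, add_mul, Finset.sum_add_distrib]
    | mul_X p i hp =>
      rw [map_mul, aeval_X, hmul, hp]
      have e : ∀ j, aeval Y (pderiv j (p * X i)) * D k (Y j) =
          (if j = i then aeval Y p * D k (Y j) else 0) + Y i * (aeval Y (pderiv j p) * D k (Y j)) := by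
        intro j
        rw [Derivation.leibniz, smul_eq_mul, smul_eq_mul, pderiv_X, map_add, map_mul, map_mul, aeval_X]
        by_cases h : j = i
        · subst h
          rw [Pi.single_eq_same, map_one, if_pos rfl]
          ring
        · rw [Pi.single_eq_of_ne (Ne.symm h), map_zero, if_neg h]
          ring
      rw [Finset.sum_congr rfl fun j _ => e j, Finset.sum_add_distrib, ← Finset.mul_sum,
        Finset.sum_ite_eq' Finset.univ i, if_pos (Finset.mem_univ i)]
  have key : ∀ (d : ℕ) (P : MvPolynomial (Fin c) K0), (∀ m, coeff m P ≠ 0 → m.degree ≤ d) →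
      aeval Y P = 0 → P = 0 := by
    have hconst : ∀ P : MvPolynomial (Fin c) K0, (∀ m, m ≠ 0 → coeff m P = 0) → aeval Y P = 0 →
        P = 0 := by
      intro P hP h
      have h1 : P = C (coeff 0 P) := by
        ext m
        rw [coeff_C]
        by_cases hm : m = 0
        · subst hm; simp
        · rw [hP m hm, if_neg (Ne.symm hm)]
      rw [h1, aeval_C, map_eq_zero_iff _ (algebraMap K0 E).injective] at h
      rw [h1, h, C_0]
    intro d
    induction d with
    | zero =>
      intro P hP h
      refine hconst P (fun m hm => ?_) h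
      by_contra hc
      have h1 := hP m hc
      have h2 : m.degree = 0 := by omega
      exact hm ((Finsupp.degree_eq_zero_iff m).1 h2)
    | succ d ih =>
      intro P hP h
      have hv : (fun j => aeval Y (pderiv j P)) = 0 := by
        apply Matrix.eq_zero_of_vecMul_eq_zero hdet
        funext k
        rw [Pi.zero_apply]
        have h1 := hchain k P
        rw [h] at h1
        have h2 : D k 0 = 0 := by
          have := h0 k 0
          rwa [map_zero] at this
        rw [h2] at h1
        exact h1.symm
      have hp : ∀ j, pderiv j P = 0 := by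
        intro j
        refine ih _ (fun m hm => ?_) (congrFun hv j)
        rw [coeff_pderiv] at hm
        have h1 := hP _ (left_ne_zero_of_mul hm)
        rw [map_add, Finsupp.degree_single] at h1
        omega
      refine hconst P (fun m hm => ?_) h
      obtain ⟨j, hj⟩ : ∃ j, m j ≠ 0 := by
        by_contra hc
        push Not at hc
        exact hm (Finsupp.ext hc)
      have h1 := congrArg (coeff (m - Finsupp.single j 1)) (hp j)
      have h2 : m - Finsupp.single j 1 + Finsupp.single j 1 = m := by
        ext l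
        by_cases hl : l = j
        · subst hl
          simp only [Finsupp.add_apply, Finsupp.tsub_apply, Finsupp.single_eq_same]
          omega
        · have : Finsupp.single j 1 l = 0 := Finsupp.single_eq_of_ne hl
          simp only [Finsupp.add_apply, Finsupp.tsub_apply, this]
          omega
      rw [coeff_pderiv, coeff_zero, h2] at h1
      rcases mul_eq_zero.1 h1 with h3 | h3
      · exact h3
      · exfalso
        have h4 : ((((m - Finsupp.single j 1 : Fin c →₀ ℕ) j + 1 : ℕ)) : K0) = 0 := by
          push_cast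
          exact h3
        exact absurd (Nat.cast_eq_zero.1 h4) (by omega)
  rw [algebraicIndependent_iff]
  intro P hP
  exact key P.totalDegree P (fun m hm => by
    have := le_totalDegree (mem_support_iff.2 hm)
    rwa [Finsupp.degree_eq_sum, ← Finsupp.sum_fintype (h := fun _ => rfl) m (fun _ e => e)]) hP

end Pool.Agent.Q26.EL
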